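import Mathlib

set_option autoImplicit false

/-!
Gaps of finite subsets of the circle `ℝ/ℤ`.
-/

namespace Pool.Agent.H506R3.Ret

open Real

/-- dichotomy for gaps of two nearby periodic sets -/
theorem dichot {Θ Θ' : Set ℝ} {a b a' b' ε : ℝ} (hΘ : ∀ x ∈ Θ, ∀ k : ℤ, x + k ∈ Θ)
    (hΘ' : ∀ x ∈ Θ', ∀ k : ℤ, x + k ∈ Θ') (ha : a ∈ Θ) (hb : b ∈ Θ) (hab : ∀ x ∈ Θ, x ≤ a ∨ b ≤ x)
    (ha' : a' ∈ Θ') (hb' : b' ∈ Θ') (hab' : ∀ x ∈ Θ', x ≤ a' ∨ b' ≤ x)
    (c1 : ∀ x ∈ Θ, ∃ y ∈ Θ', |x - y| ≤ ε) (c2 : ∀ y ∈ Θ', ∃ x ∈ Θ, |x - y| ≤ ε) (k : ℤ) :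
    (|a - a' - k| ≤ ε ∧ |b - b' - k| ≤ ε) ∨ b' + k ≤ a + ε ∨ b ≤ a' + k + ε := by
  obtain ⟨p, hp, p1⟩ := c1 a ha
  obtain ⟨q, hq, q1⟩ := c1 b hb
  obtain ⟨p', hp', p1'⟩ := c2 a' ha'
  obtain ⟨q', hq', q1'⟩ := c2 b' hb'
  have hp2 := hab' _ (hΘ' p hp (-k))
  have hq2 := hab' _ (hΘ' q hq (-k))
  have hp2' := hab _ (hΘ p' hp' k)
  have hq2' := hab _ (hΘ q' hq' k)
  push_cast at hp2 hq2
  rw [abs_le] at p1 q1 p1' q1'
  by_cases d1 : b' + k ≤ a + ε
  · right; left; exact d1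
  by_cases d2 : b ≤ a' + k + ε
  · right; right; exact d2
  left
  rw [not_le] at d1 d2
  have e1 : p + -(k : ℝ) ≤ a' := by
    rcases hp2 with h | h
    · exact h
    · linarith
  have e2 : b' ≤ q + -(k : ℝ) := by
    rcases hq2 with h | h
    · linarith
    · exact h
  have e3 : p' + (k : ℝ) ≤ a := by
    rcases hp2' with h | h
    · exact h
    · linarith
  have e4 : b ≤ q' + (k : ℝ) := by
    rcases hq2' with h | h
    · linarith
    · exact h
  rw [abs_le, abs_le]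
  refine ⟨⟨?_, ?_⟩, ?_, ?_⟩ <;> linarith

/-- packing on the circle -/
theorem packing {V : Type*} (l : List V) (α : V → ℝ) (δ : ℝ) (n : ℕ) (hδ : 0 < δ) (hδ1 : δ ≤ 1)
    (hn : 1 < (n + 1 : ℝ) * δ) (hp : l.Pairwise (fun x y => ∀ k : ℤ, δ ≤ |α x - α y - k|)) :
    l.length ≤ n := by
  match l, hp with
  | [], _ => simp
  | v :: l, hp =>
    have hb : ∀ x ∈ v :: l, Int.fract (α x - α v) ≤ 1 - δ := by
      intro x hx
      rcases List.mem_cons.1 hx with rfl | hx
      · simp [hδ1]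
      · have h1 := (List.pairwise_cons.1 hp).1 x hx (-(⌊α x - α v⌋ + 1))
        push_cast at h1
        have h2 := Int.self_sub_floor (α x - α v)
        have h3 := Int.fract_lt_one (α x - α v)
        have e : α v - α x - (-((⌊α x - α v⌋ : ℝ) + 1)) = 1 - Int.fract (α x - α v) := by
          rw [← h2]; ring
        rw [e, abs_of_pos (by linarith)] at h1
        linarith
    have hk : ∀ x ∈ v :: l, ⌊Int.fract (α x - α v) / δ⌋₊ < n := by
      intro x hx
      rw [Nat.floor_lt (div_nonneg (Int.fract_nonneg _) hδ.le), div_lt_iff₀ hδ]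
      have := hb x hx
      nlinarith
    have hnd : ((v :: l).map (fun x => ⌊Int.fract (α x - α v) / δ⌋₊)).Nodup := by
      rw [List.Nodup, List.pairwise_map]
      refine List.Pairwise.imp ?_ hp
      intro x y hxy he
      have h1 := hxy (⌊α x - α v⌋ - ⌊α y - α v⌋)
      push_cast at h1
      have hx2 := Int.self_sub_floor (α x - α v)
      have hy2 := Int.self_sub_floor (α y - α v)
      have e : α x - α y - ((⌊α x - α v⌋ : ℝ) - ⌊α y - α v⌋) =
          Int.fract (α x - α v) - Int.fract (α y - α v) := by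
        rw [← hx2, ← hy2]; ring
      rw [e] at h1
      have fx := Nat.floor_le (div_nonneg (Int.fract_nonneg (α x - α v)) hδ.le)
      have fy := Nat.floor_le (div_nonneg (Int.fract_nonneg (α y - α v)) hδ.le)
      have gx := Nat.lt_floor_add_one (Int.fract (α x - α v) / δ)
      have gy := Nat.lt_floor_add_one (Int.fract (α y - α v) / δ)
      rw [he] at fx gx
      rw [le_div_iff₀ hδ] at fx fy
      rw [div_lt_iff₀ hδ] at gx gy
      have : |Int.fract (α x - α v) - Int.fract (α y - α v)| < δ := by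
        rw [abs_lt]
        constructor <;> nlinarith
      linarith
    have h1 : ((v :: l).map (fun x => ⌊Int.fract (α x - α v) / δ⌋₊)).toFinset ⊆
        Finset.range n := by
      intro a ha
      rw [List.mem_toFinset] at ha
      obtain ⟨x, hx, rfl⟩ := List.mem_map.1 ha
      rw [Finset.mem_range]
      exact hk x hx
    have h2 := Finset.card_le_card h1
    rw [List.toFinset_card_of_nodup hnd, Finset.card_range, List.length_map] at h2
    exact h2

theorem gap_real (B : Finset ℝ) (n : ℕ) (hn : 0 < n) (h0 : (0 : ℝ) ∈ B)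
    (hB : ∀ x ∈ B, 0 ≤ x ∧ x < 1) (hc : B.card ≤ n) :
    ∃ b ∈ B, ∃ b', (b' ∈ B ∨ b' = 1) ∧ b + 1 / n ≤ b' ∧ b' ≤ 1 ∧ ∀ x ∈ B, x ≤ b ∨ b' ≤ x := by
  classical
  have hn' : (0 : ℝ) < n := by exact_mod_cast hn
  -- an empty open cell
  have h1 : ∃ j ∈ Finset.range n, j ∉ (B.erase 0).image (fun x => ⌊(n : ℝ) * x⌋₊) := by
    by_contra hcon
    push Not at hcon
    have h2 : Finset.range n ⊆ (B.erase 0).image (fun x => ⌊(n : ℝ) * x⌋₊) := hcon
    have h3 := Finset.card_le_card h2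
    rw [Finset.card_range] at h3
    have h4 := h3.trans Finset.card_image_le
    rw [Finset.card_erase_of_mem h0] at h4
    omega
  obtain ⟨j, hj, hj2⟩ := h1
  rw [Finset.mem_range] at hj
  have hcell : ∀ x ∈ B, x ≤ (j : ℝ) / n ∨ ((j : ℝ) + 1) / n ≤ x := by
    intro x hx
    by_contra hcon
    push Not at hcon
    obtain ⟨h5, h6⟩ := hcon
    rw [div_lt_iff₀ hn'] at h5
    rw [lt_div_iff₀ hn'] at h6
    apply hj2
    rw [Finset.mem_image]
    refine ⟨x, ?_, ?_⟩
    · rw [Finset.mem_erase]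
      refine ⟨?_, hx⟩
      rintro rfl
      have : (0 : ℝ) ≤ j := Nat.cast_nonneg j
      linarith
    · rw [Nat.floor_eq_iff (by have := (hB x hx).1; positivity)]
      constructor <;> nlinarith
  -- largest element below
  have hne1 : (B.filter (fun x => x ≤ (j : ℝ) / n)).Nonempty :=
    ⟨0, by rw [Finset.mem_filter]; exact ⟨h0, by positivity⟩⟩
  have hne2 : ((insert 1 B).filter (fun x => ((j : ℝ) + 1) / n ≤ x)).Nonempty := by
    refine ⟨1, ?_⟩
    rw [Finset.mem_filter]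
    refine ⟨Finset.mem_insert_self _ _, ?_⟩
    rw [div_le_one hn']
    have : (j : ℝ) + 1 ≤ n := by exact_mod_cast hj
    exact this
  obtain ⟨b, hb, hb2⟩ := Finset.exists_max_image _ id hne1
  obtain ⟨b', hb', hb2'⟩ := Finset.exists_min_image _ id hne2
  rw [Finset.mem_filter] at hb hb'
  simp only [id] at hb2 hb2'
  refine ⟨b, hb.1, b', ?_, ?_, ?_, ?_⟩
  · rcases Finset.mem_insert.1 hb'.1 with h | h
    · right; exact h
    · left; exact h
  · have h7 := hb.2
    have h8 := hb'.2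
    have : ((j : ℝ) + 1) / n = (j : ℝ) / n + 1 / n := by ring
    linarith
  · apply hb2'
    rw [Finset.mem_filter]
    refine ⟨Finset.mem_insert_self _ _, ?_⟩
    rw [div_le_one hn']
    have : (j : ℝ) + 1 ≤ n := by exact_mod_cast hj
    exact this
  · intro x hx
    rcases hcell x hx with h | h
    · left
      exact hb2 x (by rw [Finset.mem_filter]; exact ⟨hx, h⟩)
    · right
      exact hb2' x (by rw [Finset.mem_filter]; exact ⟨Finset.mem_insert_of_mem hx, h⟩)

/-- the lifted angle set of a finite set of complex numbers -/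
def Ang (F : Finset ℂ) : Set ℝ := {x | ∃ z ∈ F, ∃ k : ℤ, x = Complex.arg z / (2 * π) + k}

theorem Ang_per (F : Finset ℂ) : ∀ x ∈ Ang F, ∀ k : ℤ, x + k ∈ Ang F := by
  rintro x ⟨z, hz, k', rfl⟩ k
  exact ⟨z, hz, k' + k, by push_cast; ring⟩

theorem Ang_gap (F : Finset ℂ) (n : ℕ) (hF : F.Nonempty) (hc : F.card ≤ n) :
    ∃ a ∈ Ang F, ∃ b ∈ Ang F, a + 1 / n ≤ b ∧ ∀ x ∈ Ang F, x ≤ a ∨ b ≤ x := by
  classical
  obtain ⟨z0, hz0⟩ := hF
  have hn : 0 < n := by
    have := Finset.card_pos.2 ⟨z0, hz0⟩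
    omega
  set t : ℂ → ℝ := fun z => Complex.arg z / (2 * π) with ht
  obtain ⟨b, hb, b', hb', h1, h2, h3⟩ := gap_real (F.image (fun z => Int.fract (t z - t z0))) n hn
    (by rw [Finset.mem_image]; exact ⟨z0, hz0, by simp⟩)
    (by
      intro x hx
      obtain ⟨z, hz, rfl⟩ := Finset.mem_image.1 hx
      exact ⟨Int.fract_nonneg _, Int.fract_lt_one _⟩)
    (Finset.card_image_le.trans hc)
  have hmem : ∀ c ∈ F.image (fun z => Int.fract (t z - t z0)), t z0 + c ∈ Ang F := by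
    intro c hc
    obtain ⟨z, hz, rfl⟩ := Finset.mem_image.1 hc
    refine ⟨z, hz, -⌊t z - t z0⌋, ?_⟩
    have := Int.self_sub_floor (t z - t z0)
    push_cast
    simp only [ht] at this ⊢
    linarith
  have hb0 : 0 ≤ b := by
    obtain ⟨z, hz, rfl⟩ := Finset.mem_image.1 hb
    exact Int.fract_nonneg _
  refine ⟨t z0 + b, hmem b hb, t z0 + b', ?_, by linarith, ?_⟩
  · rcases hb' with hb' | hb'
    · exact hmem b' hb'
    · rw [hb']
      exact ⟨z0, hz0, 1, by push_cast; rfl⟩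
  · rintro x ⟨z, hz, k, rfl⟩
    have hz1 : Int.fract (t z - t z0) ∈ F.image (fun z => Int.fract (t z - t z0)) :=
      Finset.mem_image.2 ⟨z, hz, rfl⟩
    have h4 := h3 _ hz1
    have h5 := Int.fract_lt_one (t z - t z0)
    have h6 := Int.fract_nonneg (t z - t z0)
    have h7 := Int.self_sub_floor (t z - t z0)
    have h8 : Complex.arg z / (2 * π) = t z := rfl
    rw [h8]
    set f := Int.fract (t z - t z0) with hf
    have h9 : t z + k = t z0 + f + ((⌊t z - t z0⌋ + k : ℤ) : ℝ) := by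
      push_cast
      linarith
    rcases lt_trichotomy (⌊t z - t z0⌋ + k) 0 with h | h | h
    · left
      have : ((⌊t z - t z0⌋ + k : ℤ) : ℝ) ≤ -1 := by
        have : ⌊t z - t z0⌋ + k ≤ -1 := by omega
        exact_mod_cast this
      rw [h9]
      linarith
    · rw [h9, h]
      push_cast
      rcases h4 with h4 | h4
      · left; linarith
      · right; linarith
    · right
      have : (1 : ℝ) ≤ ((⌊t z - t z0⌋ + k : ℤ) : ℝ) := by
        have : 1 ≤ ⌊t z - t z0⌋ + k := by omega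
        exact_mod_cast this
      rw [h9]
      linarith

/-- nearby nonzero complex numbers have nearby angles. -/
theorem arg_close (ε : ℝ) (hε : 0 < ε) : ∃ η : ℝ, 0 < η ∧ ∀ z w : ℂ, 1 / 2 ≤ ‖z‖ → 1 / 2 ≤ ‖w‖ →
    dist z w < η → ∃ k : ℤ, |Complex.arg z / (2 * π) - (Complex.arg w / (2 * π) + k)| ≤ ε := by
  have hc : ContinuousAt Complex.arg 1 := Complex.continuousAt_arg (by simp)
  rw [Metric.continuousAt_iff] at hc
  obtain ⟨δ, hδ, h⟩ := hc (ε * (2 * π)) (by positivity)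
  refine ⟨δ / 2, by positivity, ?_⟩
  intro z w hz hw hd
  have hz0 : z ≠ 0 := by
    intro e; rw [e, norm_zero] at hz; linarith
  have hw0 : w ≠ 0 := by
    intro e; rw [e, norm_zero] at hw; linarith
  have h1 : dist (w / z) 1 < δ := by
    rw [dist_eq_norm] at hd ⊢
    have e : w / z - 1 = -((z - w) / z) := by field_simp; ring
    rw [e, norm_neg, norm_div, div_lt_iff₀ (by linarith)]
    nlinarith
  have h2 := h h1
  rw [Complex.arg_one, dist_zero_right, Real.norm_eq_abs] at h2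
  have h3 := Complex.arg_div_coe_angle hw0 hz0
  rw [← Real.Angle.coe_sub, Real.Angle.angle_eq_iff_two_pi_dvd_sub] at h3
  obtain ⟨k, hk⟩ := h3
  refine ⟨k, ?_⟩
  have e : Complex.arg z / (2 * π) - (Complex.arg w / (2 * π) + k) =
      - (Complex.arg (w / z) / (2 * π)) := by
    have : Complex.arg (w / z) = Complex.arg w - Complex.arg z + 2 * π * k := by linarith
    rw [this]
    field_simp
    ring
  rw [e, abs_neg, abs_div, abs_of_pos (by positivity : 0 < 2 * π), div_le_iff₀ (by positivity)]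
  exact h2.le

theorem Ang_close (ε η : ℝ) (hη : ∀ z w : ℂ, 1 / 2 ≤ ‖z‖ → 1 / 2 ≤ ‖w‖ →
    dist z w < η → ∃ k : ℤ, |Complex.arg z / (2 * π) - (Complex.arg w / (2 * π) + k)| ≤ ε)
    (F G : Finset ℂ) (hF : F.Nonempty) (hG : G.Nonempty) (hF' : ∀ z ∈ F, 1 / 2 ≤ ‖z‖)
    (hG' : ∀ z ∈ G, 1 / 2 ≤ ‖z‖)
    (h : Metric.hausdorffDist (F : Set ℂ) (G : Set ℂ) < η) :
    ∀ x ∈ Ang F, ∃ y ∈ Ang G, |x - y| ≤ ε := by
  rintro x ⟨z, hz, k, rfl⟩
  have fin : Metric.hausdorffEDist (F : Set ℂ) (G : Set ℂ) ≠ ⊤ :=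
    Metric.hausdorffEDist_ne_top_of_nonempty_of_bounded (by simpa using hF) (by simpa using hG)
      F.finite_toSet.isBounded G.finite_toSet.isBounded
  obtain ⟨w, hw, hzw⟩ := Metric.exists_dist_lt_of_hausdorffDist_lt (Finset.mem_coe.2 hz) h fin
  obtain ⟨k', hk'⟩ := hη z w (hF' z hz) (hG' w hw) hzw
  refine ⟨Complex.arg w / (2 * π) + ((k + k' : ℤ) : ℝ), ⟨w, hw, _, rfl⟩, ?_⟩
  push_cast
  have e : Complex.arg z / (2 * π) + k - (Complex.arg w / (2 * π) + (k + k')) =
      Complex.arg z / (2 * π) - (Complex.arg w / (2 * π) + k') := by ring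
  rw [e]
  exact hk'

/-- circle parametrisation -/
noncomputable def ee (t : ℝ) : ℂ := Complex.exp (((2 * π * t : ℝ) : ℂ) * Complex.I)

theorem norm_ee (t : ℝ) : ‖ee t‖ = 1 := Complex.norm_exp_ofReal_mul_I _

theorem dist_ee (s t : ℝ) : dist (ee s) (ee t) ≤ 2 * π * |s - t| := by
  rw [dist_eq_norm]
  have e : ee s - ee t = ee t * (Complex.exp (Complex.I * ((2 * π * (s - t) : ℝ) : ℂ)) - 1) := by
    rw [mul_sub, mul_one]
    unfold ee
    rw [← Complex.exp_add]
    congr 2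
    push_cast
    ring
  rw [e, norm_mul, norm_ee, one_mul]
  refine (Real.norm_exp_I_mul_ofReal_sub_one_le).trans ?_
  rw [Real.norm_eq_abs, abs_mul, abs_of_pos (by positivity : 0 < 2 * π)]

theorem arg_ee (t : ℝ) : ∃ k : ℤ, Complex.arg (ee t) / (2 * π) = t + k := by
  have h : ((Complex.arg (ee t) : ℝ) : Real.Angle) = ((2 * π * t : ℝ) : Real.Angle) := by
    rw [ee, Complex.arg_exp_mul_I]
    simp
  rw [Real.Angle.angle_eq_iff_two_pi_dvd_sub] at h
  obtain ⟨k, hk⟩ := h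
  refine ⟨k, ?_⟩
  have : Complex.arg (ee t) = 2 * π * t + 2 * π * k := by linarith
  rw [this]
  field_simp

theorem ee_one : ee 1 = ee 0 := by
  unfold ee
  simp [Complex.exp_two_pi_mul_I]

end Pool.Agent.H506R3.Ret
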