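import Mathlib
import Pool.Agent.Helper475.Kuhn

set_option autoImplicit false

/-!
A parity lemma for the standard triangulation of the cube (mod 2 Stokes + Kuhn's lemma).
-/

namespace Pool.Agent.H506R3.Ret

open Pool.Agent.Helper475.Kuhn

/-- Face map: insert the value `c` at position `i`, shifting the coordinates `i, …, k-1`. -/
def fc (k i c : ℕ) (v : ℕ → ℕ) : ℕ → ℕ :=
  fun j => if j < i then v j else if j = i then c else if j ≤ k then v (j - 1) else v j

theorem fc_last (k c : ℕ) : fc k k c = fun v => Function.update v k c := by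
  funext v j
  simp only [fc, Function.update_apply]
  by_cases h1 : j < k
  · rw [if_pos h1, if_neg (by omega)]
  · rw [if_neg h1]
    by_cases h2 : j = k
    · rw [if_pos h2, if_pos h2]
    · rw [if_neg h2, if_neg h2, if_neg (by omega)]

theorem fc_update (k i c t : ℕ) (hi : i ≤ k) (v : ℕ → ℕ) :
    Function.update (fc k i c v) (k + 1) t = fc (k + 1) i c (Function.update v k t) := by
  funext j
  simp only [fc, Function.update_apply]
  by_cases h0 : j = k + 1
  · subst h0
    rw [if_pos rfl, if_neg (by omega), if_neg (by omega), if_pos le_rfl, if_pos (by omega)]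
  · rw [if_neg h0]
    by_cases h1 : j < i
    · rw [if_pos h1, if_pos h1, if_neg (by omega)]
    · rw [if_neg h1, if_neg h1]
      by_cases h2 : j = i
      · rw [if_pos h2, if_pos h2]
      · rw [if_neg h2, if_neg h2]
        by_cases h3 : j ≤ k
        · rw [if_pos h3, if_pos (by omega), if_neg (by omega)]
        · rw [if_neg h3, if_neg (by omega), if_neg (by omega)]

theorem prism_nat {V V' W W' : Type*} (b t : V' → W') (b' t' : V → W) (f : V → V') (g : W → W')
    (hb : ∀ v, b (f v) = g (b' v)) (ht : ∀ v, t (f v) = g (t' v)) (l : List V)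
    (φ : List W' → ZMod 2) :
    prism b t (l.map f) φ = prism b' t' l (fun L => φ (L.map g)) := by
  induction l generalizing φ with
  | nil => simp [prism]
  | cons v l ih =>
    simp only [List.map_cons, prism]
    rw [ih, hb, ht]
    congr 2
    rw [List.map_map, List.map_map]
    congr 2
    apply List.map_congr_left
    intro a _
    exact ht a

/-- mod 2 Stokes for the triangulated cube. -/
theorem stokes (m : ℕ) (p : ℕ → ℕ) (k : ℕ) (φ : List (ℕ → ℕ) → ZMod 2) (h0 : φ [] = 0) :
    grid m p (k + 1) (fun l => del l φ) =
      ∑ i ∈ Finset.range (k + 1), (grid m p k (fun l => φ (l.map (fc k i m))) +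
        grid m p k (fun l => φ (l.map (fc k i 0)))) := by
  induction k generalizing φ with
  | zero =>
    rw [grid_del]
    have h1 : ∀ t ∈ Finset.range m, grid m p 0 (fun l => del l (fun l' =>
        prism (fun v => Function.update v 0 t) (fun v => Function.update v 0 (t + 1)) l' φ)) = 0 := by
      intro t _
      simp [grid, del, prism]
    rw [Finset.sum_eq_zero h1]
    simp [fc_last]
  | succ k ih =>
    rw [grid_del, Finset.sum_range_succ _ (k + 1), fc_last, fc_last, add_assoc]
    congr 1
    have h1 : ∀ t ∈ Finset.range m, grid m p (k + 1) (fun l => del l (fun l' =>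
        prism (fun v => Function.update v (k + 1) t)
          (fun v => Function.update v (k + 1) (t + 1)) l' φ)) =
        ∑ i ∈ Finset.range (k + 1),
          (grid m p k (fun l => prism (fun v => Function.update v k t)
            (fun v => Function.update v k (t + 1)) l (fun L => φ (L.map (fc (k + 1) i m)))) +
          grid m p k (fun l => prism (fun v => Function.update v k t)
            (fun v => Function.update v k (t + 1)) l (fun L => φ (L.map (fc (k + 1) i 0))))) := by
      intro t _
      rw [ih _ (by simp [prism])]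
      refine Finset.sum_congr rfl (fun i hi => ?_)
      rw [Finset.mem_range] at hi
      congr 2
      · funext l
        exact prism_nat _ _ _ _ _ _ (fun v => fc_update k i m t (by omega) v)
          (fun v => fc_update k i m (t + 1) (by omega) v) l φ
      · funext l
        exact prism_nat _ _ _ _ _ _ (fun v => fc_update k i 0 t (by omega) v)
          (fun v => fc_update k i 0 (t + 1) (by omega) v) l φ
    rw [Finset.sum_congr rfl h1, Finset.sum_comm]
    refine Finset.sum_congr rfl (fun i _ => ?_)
    rw [Finset.sum_add_distrib]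
    rfl

theorem prism_supp' {V W : Type*} (b t : V → W) (l : List V) (φ : List W → ZMod 2)
    (h : prism b t l φ ≠ 0) :
    ∃ l', φ l' ≠ 0 ∧ l'.length = l.length + 1 ∧ ∀ w ∈ l', ∃ v ∈ l, w = b v ∨ w = t v := by
  induction l generalizing φ with
  | nil => simp [prism] at h
  | cons v l ih =>
    simp only [prism] at h
    by_cases h1 : φ (b v :: t v :: l.map t) = 0
    · rw [h1, zero_add] at h
      obtain ⟨l', h2, h3, h4⟩ := ih _ h
      refine ⟨b v :: l', h2, by simp [h3], ?_⟩
      intro w hw
      rcases List.mem_cons.1 hw with rfl | hw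
      · exact ⟨v, List.mem_cons_self, Or.inl rfl⟩
      · obtain ⟨v', hv', e⟩ := h4 w hw
        exact ⟨v', List.mem_cons_of_mem _ hv', e⟩
    · refine ⟨_, h1, by simp, ?_⟩
      intro w hw
      rcases List.mem_cons.1 hw with rfl | hw
      · exact ⟨v, List.mem_cons_self, Or.inl rfl⟩
      rcases List.mem_cons.1 hw with rfl | hw
      · exact ⟨v, List.mem_cons_self, Or.inr rfl⟩
      · obtain ⟨v', hv', e⟩ := List.mem_map.1 hw
        exact ⟨v', List.mem_cons_of_mem _ hv', Or.inr e.symm⟩

/-- `y` is a vertex of the unit cell at `x` (only the first `k` coordinates vary). -/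
def Cell (p : ℕ → ℕ) (k : ℕ) (x y : ℕ → ℕ) : Prop :=
  (∀ i, i < k → y i = x i ∨ y i = x i + 1) ∧ (∀ i, k ≤ i → y i = p i)

theorem grid_supp' (m : ℕ) (p : ℕ → ℕ) (k : ℕ) (φ : List (ℕ → ℕ) → ZMod 2)
    (h : grid m p k φ ≠ 0) :
    ∃ l, φ l ≠ 0 ∧ l.length = k + 1 ∧ ∃ x : ℕ → ℕ, (∀ i, i < k → x i < m) ∧
      ∀ y ∈ l, Cell p k x y := by
  induction k generalizing φ with
  | zero =>
    refine ⟨[p], h, by simp, p, by simp, ?_⟩
    intro y hy
    rw [List.mem_singleton] at hy
    subst hy
    simp [Cell]
  | succ k ih =>
    simp only [grid] at h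
    obtain ⟨t, ht, h1⟩ := Finset.exists_ne_zero_of_sum_ne_zero h
    obtain ⟨l, h2, h2', x, hx, h3⟩ := ih _ h1
    obtain ⟨l', h4, h4', h5⟩ := prism_supp' _ _ _ _ h2
    refine ⟨l', h4, by omega, Function.update x k t, ?_, ?_⟩
    · intro i hi
      by_cases hik : i = k
      · subst hik
        simpa using ht
      · rw [Function.update_of_ne hik]
        exact hx i (by omega)
    · intro y hy
      obtain ⟨v, hv, e⟩ := h5 y hy
      obtain ⟨h6, h7⟩ := h3 v hv
      constructor
      · intro i hi
        by_cases hik : i = k
        · subst hik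
          rcases e with rfl | rfl <;> simp
        · rcases e with rfl | rfl <;> simp only [Function.update_of_ne hik] <;>
            exact h6 i (by omega)
      · intro i hi
        have hik : i ≠ k := by omega
        rcases e with rfl | rfl <;> simp only [Function.update_of_ne hik] <;>
          exact h7 i (by omega)

theorem zmod2_ne {a b : ZMod 2} (h : a ≠ b) : a + b ≠ 0 := by
  revert h; revert a b; decide

theorem grid_congr (m : ℕ) (p : ℕ → ℕ) (k : ℕ) (φ ψ : List (ℕ → ℕ) → ZMod 2)
    (h : ∀ l : List (ℕ → ℕ), l.length = k + 1 → ∀ x : ℕ → ℕ, (∀ i, i < k → x i < m) →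
      (∀ y ∈ l, Cell p k x y) → φ l = ψ l) : grid m p k φ = grid m p k ψ := by
  by_contra hne
  have h1 := zmod2_ne hne
  rw [← grid_add] at h1
  obtain ⟨l, h2, h3, x, hx, h4⟩ := grid_supp' _ _ _ _ h1
  apply h2
  rw [h l h3 x hx h4, two_eq]

theorem del_congr {V : Type*} (l : List V) (φ ψ : List V → ZMod 2)
    (h : ∀ l' : List V, (∀ a ∈ l', a ∈ l) → φ l' = ψ l') : del l φ = del l ψ := by
  induction l generalizing φ ψ with
  | nil => rfl
  | cons v l ih =>
    simp only [del]
    rw [h l (fun a ha => List.mem_cons_of_mem _ ha)]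
    congr 1
    apply ih
    intro l' hl'
    apply h
    intro a ha
    rcases List.mem_cons.1 ha with rfl | ha
    · exact List.mem_cons_self
    · exact List.mem_cons_of_mem _ (hl' a ha)

theorem del_zero {V : Type*} (l : List V) : del l (fun _ => (0 : ZMod 2)) = 0 := by
  have := del_add l (fun _ => (0 : ZMod 2)) (fun _ => (0 : ZMod 2))
  simp only [add_zero] at this
  rw [this, two_eq]

theorem del_sum {V ι : Type*} (l : List V) (s : Finset ι) (φ : ι → List V → ZMod 2) :
    del l (fun l' => ∑ i ∈ s, φ i l') = ∑ i ∈ s, del l (φ i) := by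
  classical
  induction s using Finset.induction_on with
  | empty => simp [del_zero]
  | insert a s ha ih =>
    simp only [Finset.sum_insert ha]
    rw [del_add, ih]

open Classical in
/-- indicator of lists without repetition -/
noncomputable def nd {V : Type*} (L : List V) : ZMod 2 := if L.Nodup then 1 else 0

theorem nd_eq (N : ℕ) (L : List ℕ) (hL : ∀ a ∈ L, a < N) :
    nd L = ∑ R ∈ (Finset.range N).powerset, ind R.val L := by
  classical
  by_cases h : L.Nodup
  · rw [Finset.sum_eq_single L.toFinset]
    · have : (L : Multiset ℕ) = L.toFinset.val := by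
        rw [List.toFinset_val, List.Nodup.dedup h]
      simp [nd, h, ind, this]
    · intro R _ hR
      simp only [ind]
      rw [if_neg]
      intro e
      apply hR
      ext a
      rw [List.mem_toFinset, ← Multiset.mem_coe, e]
      rfl
    · intro h'
      exfalso
      apply h'
      rw [Finset.mem_powerset]
      intro a ha
      rw [Finset.mem_range]
      exact hL a (List.mem_toFinset.1 ha)
  · rw [Finset.sum_eq_zero]
    · simp [nd, h]
    · intro R _
      simp only [ind]
      rw [if_neg]
      intro e
      apply h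
      have := R.nodup
      rw [← e] at this
      exact this

theorem del_nd (L : List ℕ) (h : ¬ L.Nodup) : del L nd = 0 := by
  classical
  obtain ⟨N, hN⟩ : ∃ N, ∀ a ∈ L, a < N := by
    refine ⟨L.sum + 1, fun a ha => ?_⟩
    have := List.le_sum_of_mem ha
    omega
  rw [del_congr L nd (fun l' => ∑ R ∈ (Finset.range N).powerset, ind R.val l')
    (fun l' hl' => nd_eq N l' (fun a ha => hN a (hl' a ha))), del_sum]
  apply Finset.sum_eq_zero
  intro R _
  apply (del_ind L R.val R.nodup).2
  rintro ⟨a, ha, e⟩
  apply h
  have : (a ::ₘ R.val).Nodup := Multiset.nodup_cons.2 ⟨ha, R.nodup⟩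
  rw [← e] at this
  exact this

open Classical in
/-- indicator of lists of pairwise unrelated elements -/
noncomputable def pw {V : Type*} (R : V → V → Prop) (L : List V) : ZMod 2 :=
  if L.Pairwise (fun a b => ¬ R a b) then 1 else 0

theorem exists_label {V : Type*} (R : V → V → Prop) (l : List V) (hr : ∀ a, R a a)
    (hs : ∀ a b, R a b → R b a) (ht : ∀ a ∈ l, ∀ b ∈ l, ∀ c ∈ l, R a b → R b c → R a c) :
    ∃ c : V → ℕ, ∀ x ∈ l, ∀ y ∈ l, (c x = c y ↔ R x y) := by
  classical
  refine ⟨fun x => l.findIdx (fun y => decide (R x y)), fun x hx y hy => ⟨fun h => ?_, fun h => ?_⟩⟩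
  · have h1 : l.findIdx (fun z => decide (R x z)) < l.length := by
      apply List.findIdx_lt_length_of_exists
      exact ⟨x, hx, by simpa using hr x⟩
    have h2 : l.findIdx (fun z => decide (R y z)) < l.length := by
      apply List.findIdx_lt_length_of_exists
      exact ⟨y, hy, by simpa using hr y⟩
    have h3 := List.findIdx_getElem (w := h1)
    have h4 := List.findIdx_getElem (w := h2)
    simp only [decide_eq_true_eq] at h3 h4
    have h5 : l[l.findIdx (fun z => decide (R x z))] = l[l.findIdx (fun z => decide (R y z))] := by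
      congr 1
    rw [h5] at h3
    exact ht x hx _ (List.getElem_mem _) y hy h3 (hs _ _ h4)
  · show l.findIdx (fun z => decide (R x z)) = l.findIdx (fun z => decide (R y z))
    have h6 : ∀ l' : List V, (∀ z ∈ l', z ∈ l) →
        l'.findIdx (fun z => decide (R x z)) = l'.findIdx (fun z => decide (R y z)) := by
      intro l'
      induction l' with
      | nil => intro _; rfl
      | cons v l' ih =>
        intro hl
        have hv : v ∈ l := hl v List.mem_cons_self
        have e : decide (R x v) = decide (R y v) := by
          apply Bool.decide_congr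
          constructor
          · intro h7
            exact ht y hy x hx v hv (hs _ _ h) h7
          · intro h7
            exact ht x hx y hy v hv h h7
        rw [List.findIdx_cons, List.findIdx_cons, e,
          ih (fun z hz => hl z (List.mem_cons_of_mem _ hz))]
    exact h6 l (fun z hz => hz)

theorem pw_label {V : Type*} (R : V → V → Prop) (c : V → ℕ) (l : List V)
    (h : ∀ x ∈ l, ∀ y ∈ l, (c x = c y ↔ R x y)) : pw R l = nd (l.map c) := by
  have : (l.map c).Nodup ↔ l.Pairwise (fun a b => ¬ R a b) := by
    rw [List.Nodup, List.pairwise_map]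
    constructor
    · intro h1
      refine List.Pairwise.imp_of_mem ?_ h1
      intro a b ha hb hab hR
      exact hab ((h a ha b hb).2 hR)
    · intro h1
      refine List.Pairwise.imp_of_mem ?_ h1
      intro a b ha hb hab hc
      exact hab ((h a ha b hb).1 hc)
  unfold pw nd
  by_cases hp : l.Pairwise (fun a b => ¬ R a b)
  · rw [if_pos hp, if_pos (this.2 hp)]
  · rw [if_neg hp, if_neg (fun h => hp (this.1 h))]

theorem del_pw {V : Type*} (R : V → V → Prop) (l : List V) (hr : ∀ a, R a a)
    (hs : ∀ a b, R a b → R b a) (ht : ∀ a ∈ l, ∀ b ∈ l, ∀ c ∈ l, R a b → R b c → R a c)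
    (hl : ¬ l.Pairwise (fun a b => ¬ R a b)) : del l (pw R) = 0 := by
  obtain ⟨c, hc⟩ := exists_label R l hr hs ht
  rw [del_congr l (pw R) (fun l' => nd (l'.map c))
    (fun l' hl' => pw_label R c l' (fun x hx y hy => hc x (hl' x hx) y (hl' y hy))),
    ← del_map c l nd]
  apply del_nd
  intro hn
  apply hl
  rw [List.Nodup, List.pairwise_map] at hn
  refine List.Pairwise.imp_of_mem ?_ hn
  intro a b ha hb hab hR
  exact hab ((hc a ha b hb).2 hR)

theorem nd_ind (k : ℕ) (L : List ℕ) (hl : L.length = k + 1) (hL : ∀ a ∈ L, a < k + 1) :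
    nd L = ind (Multiset.range (k + 1)) L := by
  classical
  have : L.Nodup ↔ (L : Multiset ℕ) = Multiset.range (k + 1) := by
    constructor
    · intro h
      apply Multiset.eq_of_le_of_card_le
      · rw [Multiset.le_iff_subset (Multiset.coe_nodup.2 h)]
        intro a ha
        rw [Multiset.mem_range]
        exact hL a ha
      · simp [hl]
    · intro h
      have h1 := Multiset.nodup_range (k + 1)
      rw [← h] at h1
      exact h1
  simp only [nd, ind, this]

/-- collapse of the label `i`. -/
def col (i a : ℕ) : ℕ := if a ≤ i then a else a - 1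

theorem comb (m k : ℕ) (hk : Odd k) (lam : (ℕ → ℕ) → ℕ) (h1 : ∀ x, lam x ≤ k + 1)
    (h2 : ∀ i, i ≤ k → ∀ x : ℕ → ℕ, x i = 0 → lam x ≠ i)
    (h3 : ∀ i, i ≤ k → ∀ x : ℕ → ℕ, x i = m → lam x ≤ i)
    (R : (ℕ → ℕ) → (ℕ → ℕ) → Prop) (hr : ∀ a, R a a) (hs : ∀ a b, R a b → R b a)
    (ht : ∀ x : ℕ → ℕ, (∀ i, i < k + 1 → x i < m) → ∀ a b c, Cell (fun _ => 0) (k + 1) x a →
      Cell (fun _ => 0) (k + 1) x b → Cell (fun _ => 0) (k + 1) x c → R a b → R b c → R a c)
    (hcard : ∀ x : ℕ → ℕ, (∀ i, i < k + 1 → x i < m) → ∀ l : List (ℕ → ℕ), l.length = k + 2 →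
      (∀ y ∈ l, Cell (fun _ => 0) (k + 1) x y) → ¬ l.Pairwise (fun a b => ¬ R a b))
    (hbd : ∀ x : ℕ → ℕ, (∀ i, i < k + 1 → x i < m) → ∀ a b, Cell (fun _ => 0) (k + 1) x a →
      Cell (fun _ => 0) (k + 1) x b → ∀ i, i < k + 1 → ((a i = 0 ∧ b i = 0) ∨ (a i = m ∧ b i = m)) →
      (R a b ↔ lam a = lam b)) : False := by
  classical
  have hm : 0 < m := by
    by_contra hm
    have hm0 : m = 0 := by omega
    subst hm0
    have e0 := h3 0 (by omega) (fun _ => 0) rfl
    have e1 := h2 0 (by omega) (fun _ => 0) rfl
    omega
  -- modify so that the empty list gets the value zero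
  let φ : List (ℕ → ℕ) → ZMod 2 := fun l => if l = [] then 0 else pw R l
  have hφ0 : φ [] = 0 := by simp [φ]
  have hφ : ∀ l, l ≠ [] → φ l = pw R l := by
    intro l hl
    simp [φ, hl]
  -- interior
  have hint : grid m (fun _ => 0) (k + 1) (fun l => del l φ) = 0 := by
    rw [← grid_zero m (fun _ => 0) (k + 1) (fun _ => 0) (fun _ => rfl)]
    apply grid_congr
    intro l hl x hx hc
    have e1 : del l φ = del l (pw R) := by
      match l, hl with
      | a :: b :: l, _ =>
        simp only [del]
        rw [hφ (b :: l) (by simp), hφ (a :: l) (by simp)]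
        congr 2
    rw [e1]
    exact del_pw R l hr hs (fun a ha b hb c hc' => ht x hx a b c (hc a ha) (hc b hb) (hc c hc'))
      (hcard x hx l hl hc)
  rw [stokes m _ k φ hφ0] at hint
  -- faces
  have hcell : ∀ (i c : ℕ), i ≤ k → (c = 0 ∨ c = m) → ∀ x : ℕ → ℕ, (∀ j, j < k → x j < m) →
      ∃ x' : ℕ → ℕ, (∀ j, j < k + 1 → x' j < m) ∧ ∀ y, Cell (fun _ => 0) k x y →
        Cell (fun _ => 0) (k + 1) x' (fc k i c y) := by
    intro i c hi hc x hx
    refine ⟨fc k i (if c = 0 then 0 else m - 1) x, ?_, ?_⟩
    · intro j hj
      simp only [fc]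
      split_ifs with g1 g2 g3 g4
      · exact hx j (by omega)
      · exact hm
      · omega
      · exact hx _ (by omega)
      · omega
    · intro y hy
      obtain ⟨hy1, hy2⟩ := hy
      constructor
      · intro j hj
        simp only [fc]
        split_ifs with g1 g2 g3 g4
        · exact hy1 j (by omega)
        · left; exact g3
        · right; omega
        · exact hy1 (j - 1) (by omega)
        · omega
      · intro j hj
        simp only [fc]
        rw [if_neg (by omega), if_neg (by omega), if_neg (by omega)]
        exact hy2 j (by omega)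
  have hface : ∀ (i c : ℕ), i ≤ k → (c = 0 ∨ c = m) → ∀ x : ℕ → ℕ, (∀ j, j < k → x j < m) →
      ∀ l : List (ℕ → ℕ), l.length = k + 1 → (∀ y ∈ l, Cell (fun _ => 0) k x y) →
      φ (l.map (fc k i c)) = nd ((l.map (fc k i c)).map lam) := by
    intro i c hi hc x hx l hl hy
    rw [hφ _ (by intro e; have := congrArg List.length e; simp [hl] at this)]
    obtain ⟨x', hx', hc'⟩ := hcell i c hi hc x hx
    apply pw_label
    intro a ha b hb
    obtain ⟨a', ha', rfl⟩ := List.mem_map.1 ha
    obtain ⟨b', hb', rfl⟩ := List.mem_map.1 hb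
    symm
    apply hbd x' hx' _ _ (hc' a' (hy a' ha')) (hc' b' (hy b' hb')) i (by omega)
    have e : ∀ v, fc k i c v i = c := by
      intro v
      simp [fc]
    rcases hc with hc | hc
    · left; rw [e, e]; exact ⟨hc, hc⟩
    · right; rw [e, e]; exact ⟨hc, hc⟩
  -- faces x_i = 0
  have f0 : ∀ i, i ≤ k → grid m (fun _ => 0) k (fun l => φ (l.map (fc k i 0))) = 1 := by
    intro i hi
    rw [← kuhn_parity m (fun _ => 0) k (fun v => col i (lam (fc k i 0 v)))]
    · apply grid_congr
      intro l hl x hx hy
      rw [hface i 0 hi (Or.inl rfl) x hx l hl hy, ← nd_ind k _ (by simp [hl])]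
      · have hne : ∀ v, lam (fc k i 0 v) ≠ i := fun v => h2 i hi _ (by simp [fc])
        have : ((l.map (fc k i 0)).map lam).Nodup ↔
            (l.map (fun v => col i (lam (fc k i 0 v)))).Nodup := by
          rw [List.map_map]
          unfold List.Nodup
          rw [List.pairwise_map, List.pairwise_map]
          constructor
          · intro hp
            refine List.Pairwise.imp ?_ hp
            intro a b hab hc
            apply hab
            have ha := hne a
            have hb := hne b
            simp only [Function.comp]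
            simp only [col] at hc
            split_ifs at hc <;> omega
          · intro hp
            refine List.Pairwise.imp ?_ hp
            intro a b hab hc
            apply hab
            simp only [Function.comp] at hc
            rw [hc]
        unfold nd
        by_cases hp : (l.map (fun v => col i (lam (fc k i 0 v)))).Nodup
        · rw [if_pos hp, if_pos (this.2 hp)]
        · rw [if_neg hp, if_neg (fun h => hp (this.1 h))]
      · intro a ha
        obtain ⟨v, hv, rfl⟩ := List.mem_map.1 ha
        have e1 := h1 (fc k i 0 v)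
        have e2 : lam (fc k i 0 v) ≠ i := h2 i hi _ (by simp [fc])
        simp only [col]
        split_ifs <;> omega
    · intro v
      have e1 := h1 (fc k i 0 v)
      have e2 : lam (fc k i 0 v) ≠ i := h2 i hi _ (by simp [fc])
      simp only [col]
      split_ifs <;> omega
    · intro j hj v hv
      have e2 : lam (fc k i 0 v) ≠ i := h2 i hi _ (by simp [fc])
      by_cases hji : j < i
      · have e3 : lam (fc k i 0 v) ≠ j := h2 j (by omega) _ (by simp [fc, hji, hv])
        simp only [col]
        split_ifs <;> omega
      · have e3 : lam (fc k i 0 v) ≠ j + 1 := by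
          apply h2 (j + 1) (by omega)
          simp only [fc]
          rw [if_neg (by omega), if_neg (by omega), if_pos (by omega)]
          simpa using hv
        simp only [col]
        split_ifs <;> omega
    · intro j hj v hv
      have e2 : lam (fc k i 0 v) ≠ i := h2 i hi _ (by simp [fc])
      by_cases hji : j < i
      · have e3 : lam (fc k i 0 v) ≤ j := h3 j (by omega) _ (by simp [fc, hji, hv])
        simp only [col]
        split_ifs <;> omega
      · have e3 : lam (fc k i 0 v) ≤ j + 1 := by
          apply h3 (j + 1) (by omega)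
          simp only [fc]
          rw [if_neg (by omega), if_neg (by omega), if_pos (by omega)]
          simpa using hv
        simp only [col]
        split_ifs <;> omega
  -- face x_k = m
  have f1 : grid m (fun _ => 0) k (fun l => φ (l.map (fc k k m))) = 1 := by
    rw [← kuhn_parity m (fun _ => 0) k (fun v => lam (fc k k m v))]
    · apply grid_congr
      intro l hl x hx hy
      rw [hface k m le_rfl (Or.inr rfl) x hx l hl hy, List.map_map, nd_ind k _ (by simp [hl])]
      · rfl
      · intro a ha
        obtain ⟨v, hv, rfl⟩ := List.mem_map.1 ha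
        have e1 : lam (fc k k m v) ≤ k := h3 k le_rfl _ (by simp [fc])
        simp only [Function.comp]
        omega
    · intro v
      exact h3 k le_rfl _ (by simp [fc])
    · intro j hj v hv
      exact h2 j (by omega) _ (by simp [fc, hj, hv])
    · intro j hj v hv
      exact h3 j (by omega) _ (by simp [fc, hj, hv])
  -- other faces
  have f2 : ∀ i, i < k → grid m (fun _ => 0) k (fun l => φ (l.map (fc k i m))) = 0 := by
    intro i hi
    rw [← grid_zero m (fun _ => 0) k (fun _ => 0) (fun _ => rfl)]
    apply grid_congr
    intro l hl x hx hy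
    rw [hface i m (by omega) (Or.inr rfl) x hx l hl hy]
    simp only [nd]
    rw [if_neg]
    intro hn
    have e1 : (((l.map (fc k i m)).map lam).toFinset).card = k + 1 := by
      rw [List.toFinset_card_of_nodup hn]
      simp [hl]
    have e2 : ((l.map (fc k i m)).map lam).toFinset ⊆ Finset.range (i + 1) := by
      intro a ha
      rw [List.mem_toFinset, List.map_map] at ha
      obtain ⟨v, hv, rfl⟩ := List.mem_map.1 ha
      rw [Finset.mem_range]
      have e3 : lam (fc k i m v) ≤ i := h3 i (by omega) _ (by simp [fc])
      simp only [Function.comp]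
      omega
    have e3 := Finset.card_le_card e2
    rw [e1, Finset.card_range] at e3
    omega
  rw [Finset.sum_add_distrib, Finset.sum_range_succ, f1,
    Finset.sum_eq_zero (fun i hi => f2 i (Finset.mem_range.1 hi)),
    Finset.sum_congr rfl (fun i hi => f0 i (by have := Finset.mem_range.1 hi; omega))] at hint
  obtain ⟨j, rfl⟩ := hk
  simp only [zero_add, Finset.sum_const, Finset.card_range, nsmul_eq_mul, mul_one] at hint
  have h5 : ((2 * j + 1 + 1 : ℕ) : ZMod 2) = 0 := by
    have : ((2 : ℕ) : ZMod 2) = 0 := by decide
    have e : (2 * j + 1 + 1 : ℕ) = 2 * (j + 1) := by ring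
    rw [e, Nat.cast_mul, this, zero_mul]
  rw [h5] at hint
  revert hint
  decide

end Pool.Agent.H506R3.Ret
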