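import Mathlib
import Pool.Agent.H506R3.Ret.Comb
import Pool.Agent.H506R3.Ret.Circ

set_option autoImplicit false

/-!
Stick-breaking configurations on the circle.
-/

namespace Pool.Agent.H506R3.Ret

open Real

noncomputable def sc (k M : ℕ) (x : ℕ → ℕ) (j : ℕ) : ℝ :=
  if j < k + 1 then ((min (x j) M : ℕ) : ℝ) / M else 1

noncomputable def Pr (k M : ℕ) (x : ℕ → ℕ) (j : ℕ) : ℝ :=
  ∏ i ∈ Finset.range j, (1 - sc k M x i)

noncomputable def T (k M : ℕ) (x : ℕ → ℕ) (j : ℕ) : ℝ := 1 - Pr k M x j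

theorem sc_nonneg (k M : ℕ) (x : ℕ → ℕ) (j : ℕ) : 0 ≤ sc k M x j := by
  unfold sc; split_ifs <;> positivity

theorem sc_le_one (k M : ℕ) (x : ℕ → ℕ) (j : ℕ) : sc k M x j ≤ 1 := by
  unfold sc
  split_ifs
  · apply div_le_one_of_le₀
    · exact_mod_cast min_le_right _ _
    · positivity
  · exact le_rfl

theorem Pr_nonneg (k M : ℕ) (x : ℕ → ℕ) (j : ℕ) : 0 ≤ Pr k M x j :=
  Finset.prod_nonneg (fun i _ => by have := sc_le_one k M x i; linarith)

theorem Pr_le_one (k M : ℕ) (x : ℕ → ℕ) (j : ℕ) : Pr k M x j ≤ 1 :=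
  Finset.prod_le_one (fun i _ => by have := sc_le_one k M x i; linarith)
    (fun i _ => by have := sc_nonneg k M x i; linarith)

theorem Pr_succ (k M : ℕ) (x : ℕ → ℕ) (j : ℕ) : Pr k M x (j + 1) = Pr k M x j * (1 - sc k M x j) :=
  Finset.prod_range_succ _ _

theorem T_zero (k M : ℕ) (x : ℕ → ℕ) : T k M x 0 = 0 := by simp [T, Pr]

theorem T_nonneg (k M : ℕ) (x : ℕ → ℕ) (j : ℕ) : 0 ≤ T k M x j := by
  have := Pr_le_one k M x j; unfold T; linarith

theorem T_le_one (k M : ℕ) (x : ℕ → ℕ) (j : ℕ) : T k M x j ≤ 1 := by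
  have := Pr_nonneg k M x j; unfold T; linarith

theorem T_succ (k M : ℕ) (x : ℕ → ℕ) (j : ℕ) :
    T k M x (j + 1) = T k M x j + Pr k M x j * sc k M x j := by
  unfold T; rw [Pr_succ]; ring

theorem T_last (k M : ℕ) (x : ℕ → ℕ) : T k M x (k + 2) = 1 := by
  unfold T
  rw [show k + 2 = (k + 1) + 1 from rfl, Pr_succ]
  simp [sc]

theorem T_mono (k M : ℕ) (x : ℕ → ℕ) : Monotone (T k M x) := by
  apply monotone_nat_of_le_succ
  intro j
  rw [T_succ]
  have := mul_nonneg (Pr_nonneg k M x j) (sc_nonneg k M x j)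
  linarith

theorem T_zero_step (k M : ℕ) (x : ℕ → ℕ) (i : ℕ) (hi : i < k + 1) (h : x i = 0) :
    T k M x (i + 1) = T k M x i := by
  rw [T_succ]
  simp [sc, hi, h]

theorem T_top (k M : ℕ) (hM : 0 < M) (x : ℕ → ℕ) (i : ℕ) (hi : i < k + 1) (h : x i = M) (j : ℕ)
    (hj : i + 1 ≤ j) : T k M x j = 1 := by
  have hM' : (M : ℝ) ≠ 0 := by positivity
  have h1 : T k M x (i + 1) = 1 := by
    unfold T
    rw [Pr_succ]
    simp [sc, hi, h, hM']
  have h2 := T_mono k M x hj
  have h3 := T_le_one k M x j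
  linarith

theorem T_sum (k M : ℕ) (x : ℕ → ℕ) :
    ∑ j ∈ Finset.range (k + 2), (T k M x (j + 1) - T k M x j) = 1 := by
  rw [Finset.sum_range_sub, T_last, T_zero, sub_zero]

theorem lam_exists (k M : ℕ) (x : ℕ → ℕ) : ∃ j ∈ Finset.range (k + 2),
    ∀ i ∈ Finset.range (k + 2), T k M x (i + 1) - T k M x i ≤ T k M x (j + 1) - T k M x j :=
  Finset.exists_max_image _ (fun j => T k M x (j + 1) - T k M x j) ⟨0, by simp⟩

noncomputable def lam (k M : ℕ) (x : ℕ → ℕ) : ℕ := (lam_exists k M x).choose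

theorem lam_lt (k M : ℕ) (x : ℕ → ℕ) : lam k M x < k + 2 :=
  Finset.mem_range.1 (lam_exists k M x).choose_spec.1

theorem lam_max (k M : ℕ) (x : ℕ → ℕ) (i : ℕ) (hi : i < k + 2) :
    T k M x (i + 1) - T k M x i ≤ T k M x (lam k M x + 1) - T k M x (lam k M x) :=
  (lam_exists k M x).choose_spec.2 i (Finset.mem_range.2 hi)

theorem lam_pos (k M : ℕ) (x : ℕ → ℕ) :
    0 < T k M x (lam k M x + 1) - T k M x (lam k M x) := by
  by_contra h
  rw [not_lt] at h
  have h1 : ∑ j ∈ Finset.range (k + 2), (T k M x (j + 1) - T k M x j) ≤ 0 :=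
    Finset.sum_nonpos (fun j hj => (lam_max k M x j (Finset.mem_range.1 hj)).trans h)
  rw [T_sum] at h1
  linarith

theorem lam_ge (k M : ℕ) (x : ℕ → ℕ) (i : ℕ) (hi : i < k + 2)
    (h : T k M x (i + 1) - T k M x i = 0) :
    1 / ((k : ℝ) + 1) ≤ T k M x (lam k M x + 1) - T k M x (lam k M x) := by
  have h1 := T_sum k M x
  rw [← Finset.add_sum_erase _ _ (Finset.mem_range.2 hi), h, zero_add] at h1
  have h2 : ∑ j ∈ (Finset.range (k + 2)).erase i, (T k M x (j + 1) - T k M x j) ≤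
      ((Finset.range (k + 2)).erase i).card • (T k M x (lam k M x + 1) - T k M x (lam k M x)) :=
    Finset.sum_le_card_nsmul _ _ _ (fun j hj =>
      lam_max k M x j (Finset.mem_range.1 (Finset.mem_of_mem_erase hj)))
  rw [h1, Finset.card_erase_of_mem (Finset.mem_range.2 hi), Finset.card_range, nsmul_eq_mul] at h2
  rw [div_le_iff₀ (by positivity)]
  push_cast [show k + 2 - 1 = k + 1 by omega] at h2
  linarith

theorem bd_zero (k M : ℕ) (hM : 0 < M) (x : ℕ → ℕ) (h : ∃ i, i < k + 1 ∧ (x i = 0 ∨ x i = M)) :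
    ∃ i, i < k + 2 ∧ T k M x (i + 1) - T k M x i = 0 := by
  obtain ⟨i, hi, h | h⟩ := h
  · exact ⟨i, by omega, by rw [T_zero_step k M x i hi h, sub_self]⟩
  · exact ⟨i + 1, by omega, by
      rw [T_top k M hM x i hi h (i + 1) le_rfl, T_top k M hM x i hi h (i + 1 + 1) (by omega),
        sub_self]⟩

theorem lam_ne (k M : ℕ) (x : ℕ → ℕ) (i : ℕ) (hi : i ≤ k) (h : x i = 0) : lam k M x ≠ i := by
  intro e
  have h1 := lam_pos k M x
  rw [e, T_zero_step k M x i (by omega) h] at h1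
  linarith

theorem lam_le (k M : ℕ) (hM : 0 < M) (x : ℕ → ℕ) (i : ℕ) (hi : i ≤ k) (h : x i = M) :
    lam k M x ≤ i := by
  by_contra hcon
  have h1 := lam_pos k M x
  rw [T_top k M hM x i (by omega) h (lam k M x) (by omega),
    T_top k M hM x i (by omega) h (lam k M x + 1) (by omega)] at h1
  linarith

theorem sc_close (k M : ℕ) (hM : 0 < M) (x y y' : ℕ → ℕ) (hy : Cell (fun _ => 0) (k + 1) x y)
    (hy' : Cell (fun _ => 0) (k + 1) x y') (j : ℕ) : |sc k M y j - sc k M y' j| ≤ 1 / M := by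
  unfold sc
  split_ifs with hj
  · have h1 := hy.1 j hj
    have h2 := hy'.1 j hj
    rw [← sub_div, abs_div, Nat.abs_cast]
    have hM' : (0 : ℝ) < M := by exact_mod_cast hM
    rw [div_le_div_iff_of_pos_right hM']
    have h3 : min (y j) M ≤ min (y' j) M + 1 := by omega
    have h4 : min (y' j) M ≤ min (y j) M + 1 := by omega
    have h3' : ((min (y j) M : ℕ) : ℝ) ≤ ((min (y' j) M : ℕ) : ℝ) + 1 := by exact_mod_cast h3
    have h4' : ((min (y' j) M : ℕ) : ℝ) ≤ ((min (y j) M : ℕ) : ℝ) + 1 := by exact_mod_cast h4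
    rw [abs_le]
    constructor <;> linarith
  · simp

theorem T_close (k M : ℕ) (hM : 0 < M) (x y y' : ℕ → ℕ) (hy : Cell (fun _ => 0) (k + 1) x y)
    (hy' : Cell (fun _ => 0) (k + 1) x y') (j : ℕ) : |T k M y j - T k M y' j| ≤ j / M := by
  induction j with
  | zero => simp [T_zero]
  | succ j ih =>
    have h1 := sc_close k M hM x y y' hy hy' j
    have e : T k M y (j + 1) - T k M y' (j + 1) =
        (T k M y j - T k M y' j) * (1 - sc k M y j) +
          Pr k M y' j * (sc k M y j - sc k M y' j) := by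
      unfold T; rw [Pr_succ, Pr_succ]; ring
    rw [e]
    refine (abs_add_le _ _).trans ?_
    rw [abs_mul, abs_mul]
    have h2 : |1 - sc k M y j| ≤ 1 := by
      rw [abs_le]
      have := sc_nonneg k M y j
      have := sc_le_one k M y j
      constructor <;> linarith
    have h3 : |Pr k M y' j| ≤ 1 := by
      rw [abs_of_nonneg (Pr_nonneg _ _ _ _)]; exact Pr_le_one _ _ _ _
    have h4 : |T k M y j - T k M y' j| * |1 - sc k M y j| ≤ |T k M y j - T k M y' j| :=
      mul_le_of_le_one_right (abs_nonneg _) h2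
    have h5 : |Pr k M y' j| * |sc k M y j - sc k M y' j| ≤ |sc k M y j - sc k M y' j| :=
      mul_le_of_le_one_left (abs_nonneg _) h3
    push_cast
    rw [add_div]
    linarith

/-- the configuration -/
noncomputable def conf (k M : ℕ) (x : ℕ → ℕ) : Finset ℂ :=
  (Finset.range (k + 2)).image (fun j => ee (T k M x j))

theorem conf_nonempty (k M : ℕ) (x : ℕ → ℕ) : (conf k M x).Nonempty :=
  ⟨ee (T k M x 0), Finset.mem_image.2 ⟨0, by simp, rfl⟩⟩

theorem conf_card (k M : ℕ) (x : ℕ → ℕ) : (conf k M x).card ≤ k + 2 := by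
  refine Finset.card_image_le.trans ?_
  simp

theorem conf_norm (k M : ℕ) (x : ℕ → ℕ) : ∀ z ∈ conf k M x, ‖z‖ = 1 := by
  intro z hz
  obtain ⟨j, _, rfl⟩ := Finset.mem_image.1 hz
  exact norm_ee _

/-- the configuration with one point removed -/
noncomputable def confB (k M : ℕ) (x : ℕ → ℕ) (i : ℕ) : Finset ℂ :=
  ((Finset.range (k + 2)).erase i).image (fun j => ee (T k M x j))

theorem confB_card (k M : ℕ) (x : ℕ → ℕ) (i : ℕ) (hi : i < k + 2) :
    (confB k M x i).card ≤ k + 1 := by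
  refine Finset.card_image_le.trans ?_
  rw [Finset.card_erase_of_mem (Finset.mem_range.2 hi), Finset.card_range]
  omega

theorem confB_nonempty (k M : ℕ) (x : ℕ → ℕ) (i : ℕ) (hi : i < k + 2) :
    (confB k M x i).Nonempty := by
  apply Finset.Nonempty.image
  rw [← Finset.card_pos, Finset.card_erase_of_mem (Finset.mem_range.2 hi), Finset.card_range]
  omega

theorem confB_near (k M : ℕ) (x : ℕ → ℕ) (i : ℕ) (hi : i < k + 2) :
    ∃ w ∈ confB k M x i, dist (ee (T k M x i)) w ≤ 2 * π * (T k M x (i + 1) - T k M x i) := by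
  have h0 : 0 ≤ T k M x (i + 1) - T k M x i := by
    have := T_mono k M x (Nat.le_succ i)
    simp only [Nat.succ_eq_add_one] at this
    linarith
  have h1 : dist (ee (T k M x i)) (ee (T k M x (i + 1))) ≤
      2 * π * (T k M x (i + 1) - T k M x i) := by
    refine (dist_ee _ _).trans (le_of_eq ?_)
    rw [abs_sub_comm, abs_of_nonneg h0]
  by_cases hk : i = k + 1
  · refine ⟨ee (T k M x 0), Finset.mem_image.2 ⟨0, ?_, rfl⟩, ?_⟩
    · rw [Finset.mem_erase, Finset.mem_range]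
      omega
    · rw [T_zero, ← ee_one]
      rw [hk] at h1 ⊢
      rw [show k + 1 + 1 = k + 2 from rfl, T_last] at h1 ⊢
      exact h1
  · refine ⟨ee (T k M x (i + 1)), Finset.mem_image.2 ⟨i + 1, ?_, rfl⟩, h1⟩
    rw [Finset.mem_erase, Finset.mem_range]
    omega

theorem confB_dist (k M : ℕ) (x : ℕ → ℕ) (i : ℕ) (hi : i < k + 2) :
    Metric.hausdorffDist (conf k M x : Set ℂ) (confB k M x i : Set ℂ) ≤
      2 * π * (T k M x (i + 1) - T k M x i) := by
  have h0 : 0 ≤ T k M x (i + 1) - T k M x i := by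
    have := T_mono k M x (Nat.le_succ i)
    simp only [Nat.succ_eq_add_one] at this
    linarith
  apply Metric.hausdorffDist_le_of_mem_dist (by positivity)
  · intro z hz
    rw [Finset.mem_coe] at hz
    obtain ⟨j, hj, rfl⟩ := Finset.mem_image.1 hz
    by_cases hji : j = i
    · rw [hji]
      obtain ⟨w, hw, h⟩ := confB_near k M x i hi
      exact ⟨w, Finset.mem_coe.2 hw, h⟩
    · refine ⟨ee (T k M x j), Finset.mem_coe.2 (Finset.mem_image.2 ⟨j, ?_, rfl⟩), ?_⟩
      · rw [Finset.mem_erase]; exact ⟨hji, hj⟩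
      · rw [dist_self]; positivity
  · intro z hz
    rw [Finset.mem_coe] at hz
    obtain ⟨j, hj, rfl⟩ := Finset.mem_image.1 hz
    refine ⟨ee (T k M x j), Finset.mem_coe.2 (Finset.mem_image.2
      ⟨j, Finset.mem_of_mem_erase hj, rfl⟩), ?_⟩
    rw [dist_self]; positivity

theorem confB_eq (k M : ℕ) (x : ℕ → ℕ) (i : ℕ) (hi : i < k + 2)
    (h : T k M x (i + 1) - T k M x i = 0) : conf k M x = confB k M x i := by
  ext z
  constructor
  · intro hz
    obtain ⟨j, hj, rfl⟩ := Finset.mem_image.1 hz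
    by_cases hji : j = i
    · rw [hji]
      obtain ⟨w, hw, h'⟩ := confB_near k M x i hi
      rw [h, mul_zero] at h'
      have := dist_le_zero.1 h'
      rw [this]
      exact hw
    · exact Finset.mem_image.2 ⟨j, by rw [Finset.mem_erase]; exact ⟨hji, hj⟩, rfl⟩
  · intro hz
    obtain ⟨j, hj, rfl⟩ := Finset.mem_image.1 hz
    exact Finset.mem_image.2 ⟨j, Finset.mem_of_mem_erase hj, rfl⟩

theorem conf_card_bd (k M : ℕ) (hM : 0 < M) (x : ℕ → ℕ)
    (h : ∃ i, i < k + 1 ∧ (x i = 0 ∨ x i = M)) : (conf k M x).card ≤ k + 1 := by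
  obtain ⟨i, hi, h1⟩ := bd_zero k M hM x h
  rw [confB_eq k M x i hi h1]
  exact confB_card k M x i hi

theorem min_gap (k M : ℕ) (x : ℕ → ℕ) : ∃ i, i < k + 2 ∧
    T k M x (i + 1) - T k M x i ≤ 1 / ((k : ℝ) + 2) := by
  by_contra hcon
  push Not at hcon
  have h1 : ∑ j ∈ Finset.range (k + 2), (1 / ((k : ℝ) + 2)) <
      ∑ j ∈ Finset.range (k + 2), (T k M x (j + 1) - T k M x j) :=
    Finset.sum_lt_sum_of_nonempty ⟨0, by simp⟩ (fun j hj => hcon j (Finset.mem_range.1 hj))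
  rw [T_sum, Finset.sum_const, Finset.card_range, nsmul_eq_mul] at h1
  push_cast at h1
  have : ((k : ℝ) + 2) * (1 / ((k : ℝ) + 2)) = 1 := by field_simp
  linarith

theorem conf_close (k M : ℕ) (hM : 0 < M) (x y y' : ℕ → ℕ) (hy : Cell (fun _ => 0) (k + 1) x y)
    (hy' : Cell (fun _ => 0) (k + 1) x y') :
    Metric.hausdorffDist (conf k M y : Set ℂ) (conf k M y' : Set ℂ) ≤
      2 * π * (((k : ℝ) + 2) / M) := by
  have key : ∀ y y' : ℕ → ℕ, Cell (fun _ => 0) (k + 1) x y → Cell (fun _ => 0) (k + 1) x y' →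
      ∀ z ∈ (conf k M y : Set ℂ), ∃ w ∈ (conf k M y' : Set ℂ), dist z w ≤
        2 * π * (((k : ℝ) + 2) / M) := by
    intro y y' hy hy' z hz
    rw [Finset.mem_coe] at hz
    obtain ⟨j, hj, rfl⟩ := Finset.mem_image.1 hz
    refine ⟨ee (T k M y' j), Finset.mem_coe.2 (Finset.mem_image.2 ⟨j, hj, rfl⟩), ?_⟩
    refine (dist_ee _ _).trans ?_
    apply mul_le_mul_of_nonneg_left _ (by positivity)
    refine (T_close k M hM x y y' hy hy' j).trans ?_
    have hM' : (0 : ℝ) < M := by exact_mod_cast hM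
    rw [div_le_div_iff_of_pos_right hM']
    have := Finset.mem_range.1 hj
    have : j ≤ k + 2 := by omega
    exact_mod_cast this
  exact Metric.hausdorffDist_le_of_mem_dist (by positivity) (key y y' hy hy') (key y' y hy' hy)

theorem conf_Ang_mem (k M : ℕ) (x : ℕ → ℕ) (j : ℕ) (hj : j ≤ k + 2) :
    T k M x j ∈ Ang (conf k M x) := by
  by_cases hk : j = k + 2
  · obtain ⟨m, hm⟩ := arg_ee (T k M x 0)
    refine ⟨ee (T k M x 0), Finset.mem_image.2 ⟨0, by simp, rfl⟩, 1 - m, ?_⟩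
    rw [hm, hk, T_last, T_zero]
    push_cast
    ring
  · obtain ⟨m, hm⟩ := arg_ee (T k M x j)
    refine ⟨ee (T k M x j), Finset.mem_image.2 ⟨j, by rw [Finset.mem_range]; omega, rfl⟩, -m, ?_⟩
    rw [hm]
    push_cast
    ring

theorem conf_Ang_gap (k M : ℕ) (x : ℕ → ℕ) (j : ℕ) :
    ∀ y ∈ Ang (conf k M x), y ≤ T k M x j ∨ T k M x (j + 1) ≤ y := by
  rintro y ⟨z, hz, m, rfl⟩
  obtain ⟨i, hi, rfl⟩ := Finset.mem_image.1 hz
  obtain ⟨m', hm'⟩ := arg_ee (T k M x i)
  rw [hm']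
  have e : T k M x i + (m' : ℝ) + m = T k M x i + ((m' + m : ℤ) : ℝ) := by push_cast; ring
  rw [e]
  have h1 := T_nonneg k M x i
  have h2 := T_le_one k M x i
  have h3 := T_nonneg k M x j
  have h4 := T_le_one k M x (j + 1)
  rcases lt_trichotomy (m' + m) 0 with h | h | h
  · left
    have : ((m' + m : ℤ) : ℝ) ≤ -1 := by
      have : m' + m ≤ -1 := by omega
      exact_mod_cast this
    linarith
  · rw [h]
    push_cast
    rw [add_zero]
    rcases le_or_gt i j with hij | hij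
    · left; exact T_mono k M x hij
    · right; exact T_mono k M x hij
  · right
    have : (1 : ℝ) ≤ ((m' + m : ℤ) : ℝ) := by
      have : 1 ≤ m' + m := by omega
      exact_mod_cast this
    linarith

end Pool.Agent.H506R3.Ret
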