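import Mathlib
import Pool.Agent.H506R3.Ret.Conf

set_option autoImplicit false

/-!
No uniformly Lipschitz retractions in the plane.
-/

namespace Pool.Agent.H506R3.Ret

open Real

theorem fin_top (F G : Finset ℂ) (hF : F.Nonempty) (hG : G.Nonempty) :
    Metric.hausdorffEDist (F : Set ℂ) (G : Set ℂ) ≠ ⊤ :=
  Metric.hausdorffEDist_ne_top_of_nonempty_of_bounded (by simpa using hF) (by simpa using hG)
    F.finite_toSet.isBounded G.finite_toSet.isBounded

theorem no_retr (C : ℝ) (hC : 0 ≤ C) (k : ℕ) (hk : Odd k) (hk2 : (C + 1) * (2 * π) / (k + 2) ≤ 1 / 4)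
    (r : Finset ℂ → Finset ℂ)
    (r1 : ∀ s : Finset ℂ, s.Nonempty → s.card ≤ k + 2 → (r s).Nonempty ∧ (r s).card ≤ k + 1)
    (r2 : ∀ s : Finset ℂ, s.Nonempty → s.card ≤ k + 1 → r s = s)
    (r3 : ∀ s t : Finset ℂ, s.Nonempty → s.card ≤ k + 2 → t.Nonempty → t.card ≤ k + 2 →
      Metric.hausdorffDist ((r s : Finset ℂ) : Set ℂ) ((r t : Finset ℂ) : Set ℂ)
        ≤ C * Metric.hausdorffDist ((s : Finset ℂ) : Set ℂ) ((t : Finset ℂ) : Set ℂ)) : False := by
  classical
  set ε : ℝ := 1 / (4 * ((k : ℝ) + 2) ^ 2) with hε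
  have hk0 : (0 : ℝ) ≤ k := Nat.cast_nonneg k
  have hε0 : 0 < ε := by positivity
  obtain ⟨η, hη0, hη⟩ := arg_close ε hε0
  -- choice of M
  obtain ⟨M, hM1⟩ := exists_nat_gt (max (max 1 (((k : ℝ) + 2) / ε))
    ((C + 1) * (2 * π) * ((k : ℝ) + 2) / η))
  have hM2 : (1 : ℝ) < M := ((le_max_left _ _).trans (le_max_left _ _)).trans_lt hM1
  have hM3 : ((k : ℝ) + 2) / ε < M := ((le_max_right _ _).trans (le_max_left _ _)).trans_lt hM1
  have hM4 : (C + 1) * (2 * π) * ((k : ℝ) + 2) / η < M := (le_max_right _ _).trans_lt hM1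
  have hM' : (0 : ℝ) < M := by linarith
  have hM : 0 < M := by exact_mod_cast hM'
  have hMε : ((k : ℝ) + 2) / M < ε := by
    rw [div_lt_iff₀ hε0] at hM3
    rw [div_lt_iff₀ hM']
    linarith
  have hMη : (C + 1) * (2 * π * (((k : ℝ) + 2) / M)) < η := by
    rw [div_lt_iff₀ hη0] at hM4
    have : (C + 1) * (2 * π * (((k : ℝ) + 2) / M)) = (C + 1) * (2 * π) * ((k : ℝ) + 2) / M := by
      ring
    rw [this, div_lt_iff₀ hM']
    linarith
  -- the images
  have hF1 : ∀ x, (r (conf k M x)).Nonempty := fun x =>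
    (r1 _ (conf_nonempty k M x) (conf_card k M x)).1
  have hF2 : ∀ x, (r (conf k M x)).card ≤ k + 1 := fun x =>
    (r1 _ (conf_nonempty k M x) (conf_card k M x)).2
  have hF3 : ∀ x, (∃ i, i < k + 1 ∧ (x i = 0 ∨ x i = M)) → r (conf k M x) = conf k M x :=
    fun x hx => r2 _ (conf_nonempty k M x) (conf_card_bd k M hM x hx)
  have hF4 : ∀ x, ∀ z ∈ r (conf k M x), 1 / 2 ≤ ‖z‖ := by
    intro x z hz
    obtain ⟨i, hi, hgap⟩ := min_gap k M x
    have h1 := confB_dist k M x i hi
    have h2 : Metric.hausdorffDist (conf k M x : Set ℂ) (confB k M x i : Set ℂ) ≤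
        2 * π * (1 / ((k : ℝ) + 2)) := h1.trans (by
          apply mul_le_mul_of_nonneg_left hgap (by positivity))
    have h3 := r3 (conf k M x) (confB k M x i) (conf_nonempty k M x) (conf_card k M x)
      (confB_nonempty k M x i hi) ((confB_card k M x i hi).trans (by omega))
    rw [r2 _ (confB_nonempty k M x i hi) (confB_card k M x i hi)] at h3
    have h4 : Metric.hausdorffDist (r (conf k M x) : Set ℂ) (conf k M x : Set ℂ) ≤
        Metric.hausdorffDist (r (conf k M x) : Set ℂ) (confB k M x i : Set ℂ) +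
        Metric.hausdorffDist (confB k M x i : Set ℂ) (conf k M x : Set ℂ) :=
      Metric.hausdorffDist_triangle (fin_top _ _ (hF1 x) (confB_nonempty k M x i hi))
    rw [Metric.hausdorffDist_comm (s := (confB k M x i : Set ℂ))] at h4
    have h5 : C * Metric.hausdorffDist (conf k M x : Set ℂ) (confB k M x i : Set ℂ) ≤
        C * (2 * π * (1 / ((k : ℝ) + 2))) := mul_le_mul_of_nonneg_left h2 hC
    have h6 : C * (2 * π * (1 / ((k : ℝ) + 2))) + 2 * π * (1 / ((k : ℝ) + 2)) =
        (C + 1) * (2 * π) / (k + 2) := by ring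
    have h7 : Metric.hausdorffDist (r (conf k M x) : Set ℂ) (conf k M x : Set ℂ) < 1 / 2 := by
      linarith
    obtain ⟨w, hw, hzw⟩ := Metric.exists_dist_lt_of_hausdorffDist_lt (Finset.mem_coe.2 hz) h7
      (fin_top _ _ (hF1 x) (conf_nonempty k M x))
    have h8 := conf_norm k M x w hw
    rw [dist_eq_norm] at hzw
    have h9 : ‖w‖ ≤ ‖z‖ + ‖z - w‖ := by
      have : w = z - (z - w) := by ring
      calc ‖w‖ = ‖z - (z - w)‖ := by rw [← this]
        _ ≤ ‖z‖ + ‖z - w‖ := norm_sub_le _ _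
    linarith
  -- closeness in a cell
  have hcl : ∀ x y y' : ℕ → ℕ, Cell (fun _ => 0) (k + 1) x y → Cell (fun _ => 0) (k + 1) x y' →
      ∀ u ∈ Ang (r (conf k M y)), ∃ v ∈ Ang (r (conf k M y')), |u - v| ≤ ε := by
    intro x y y' hy hy'
    apply Ang_close ε η hη _ _ (hF1 y) (hF1 y') (hF4 y) (hF4 y')
    have h1 := conf_close k M hM x y y' hy hy'
    have h2 := r3 (conf k M y) (conf k M y') (conf_nonempty k M y) (conf_card k M y)
      (conf_nonempty k M y') (conf_card k M y')
    have h3 := mul_le_mul_of_nonneg_left h1 hC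
    have h4 : 0 ≤ 2 * π * (((k : ℝ) + 2) / M) := by positivity
    nlinarith
  -- labels
  have hlab : ∀ x : ℕ → ℕ, ∃ a b : ℝ, a ∈ Ang (r (conf k M x)) ∧ b ∈ Ang (r (conf k M x)) ∧
      a + 1 / ((k : ℝ) + 1) ≤ b ∧ (∀ y ∈ Ang (r (conf k M x)), y ≤ a ∨ b ≤ y) ∧
      ((∃ i, i < k + 1 ∧ (x i = 0 ∨ x i = M)) →
        a = T k M x (lam k M x) ∧ b = T k M x (lam k M x + 1)) := by
    intro x
    by_cases hx : ∃ i, i < k + 1 ∧ (x i = 0 ∨ x i = M)
    · refine ⟨T k M x (lam k M x), T k M x (lam k M x + 1), ?_, ?_, ?_, ?_, fun _ => ⟨rfl, rfl⟩⟩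
      · rw [hF3 x hx]
        exact conf_Ang_mem k M x _ (lam_lt k M x).le
      · rw [hF3 x hx]
        exact conf_Ang_mem k M x _ (lam_lt k M x)
      · obtain ⟨i, hi, h0⟩ := bd_zero k M hM x hx
        have := lam_ge k M x i hi h0
        linarith
      · rw [hF3 x hx]
        exact conf_Ang_gap k M x _
    · obtain ⟨a, ha, b, hb, h1, h2⟩ := Ang_gap (r (conf k M x)) (k + 1) (hF1 x) (hF2 x)
      refine ⟨a, b, ha, hb, ?_, h2, fun h => absurd h hx⟩
      push_cast at h1
      exact h1
  choose a b ha hb hab hgap hbdl using hlab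
  -- numerical facts
  have hk1 : (0 : ℝ) < (k : ℝ) + 1 := by positivity
  have hk2' : (0 : ℝ) < (k : ℝ) + 2 := by positivity
  have e1 : 4 * ε < 1 / ((k : ℝ) + 1) := by
    rw [hε]
    have : 4 * (1 / (4 * ((k : ℝ) + 2) ^ 2)) = 1 / ((k : ℝ) + 2) ^ 2 := by
      field_simp
    rw [this]
    apply one_div_lt_one_div_of_lt hk1
    nlinarith
  have e2 : ((k : ℝ) + 2) * ε < 1 / ((k : ℝ) + 1) := by
    rw [hε]
    have : ((k : ℝ) + 2) * (1 / (4 * ((k : ℝ) + 2) ^ 2)) = 1 / (4 * ((k : ℝ) + 2)) := by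
      field_simp
    rw [this]
    apply one_div_lt_one_div_of_lt hk1
    nlinarith
  have e3 : 1 / ((k : ℝ) + 1) ≤ 1 := by
    rw [div_le_one hk1]
    linarith
  -- dichotomy
  have hdich : ∀ x y y' : ℕ → ℕ, Cell (fun _ => 0) (k + 1) x y → Cell (fun _ => 0) (k + 1) x y' →
      ∀ m : ℤ, (|a y - a y' - m| ≤ ε ∧ |b y - b y' - m| ≤ ε) ∨ b y' + m ≤ a y + ε ∨
        b y ≤ a y' + m + ε := by
    intro x y y' hy hy' m
    apply dichot (Ang_per _) (Ang_per _) (ha y) (hb y) (hgap y) (ha y') (hb y') (hgap y')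
      (hcl x y y' hy hy')
    intro v hv
    obtain ⟨u, hu, huv⟩ := hcl x y' y hy' hy v hv
    exact ⟨u, hu, by rw [abs_sub_comm]; exact huv⟩
  apply comb M k hk (lam k M) (fun x => by have := lam_lt k M x; omega)
    (fun i hi x hx => lam_ne k M x i hi hx) (fun i hi x hx => lam_le k M hM x i hi hx)
    (fun x y => ∃ m : ℤ, |a x - a y - m| ≤ ε ∧ |b x - b y - m| ≤ ε)
  · intro x
    exact ⟨0, by simp [hε0.le], by simp [hε0.le]⟩
  · rintro x y ⟨m, h1, h2⟩
    refine ⟨-m, ?_, ?_⟩
    · rw [abs_le] at h1 ⊢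
      push_cast
      constructor <;> linarith
    · rw [abs_le] at h2 ⊢
      push_cast
      constructor <;> linarith
  · rintro x hx y1 y2 y3 c1 c2 c3 ⟨m, h1, h2⟩ ⟨m', h3, h4⟩
    refine ⟨m + m', ?_⟩
    rcases hdich x y1 y3 c1 c3 (m + m') with h | h | h
    · exact h
    · exfalso
      rw [abs_le] at h1 h2 h3 h4
      push_cast at h
      have := hab y1
      have := hab y3
      linarith
    · exfalso
      rw [abs_le] at h1 h2 h3 h4
      push_cast at h
      have := hab y1
      have := hab y3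
      linarith
  · intro x hx l hl hc hp
    have hlen := packing l a (1 / ((k : ℝ) + 1) - ε) (k + 1) (by linarith) (by linarith)
      (by
        push_cast
        have : ((k : ℝ) + 1 + 1) * (1 / ((k : ℝ) + 1) - ε) =
            1 + (1 / ((k : ℝ) + 1) - ((k : ℝ) + 2) * ε) := by
          field_simp
          ring
        rw [this]
        linarith)
      (by
        refine List.Pairwise.imp_of_mem ?_ hp
        intro y y' hy hy' hne m
        rcases hdich x y y' (hc y hy) (hc y' hy') m with h | h | h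
        · exact absurd ⟨m, h⟩ hne
        · have := hab y'
          rw [le_abs]
          left
          linarith
        · have := hab y
          rw [le_abs]
          right
          linarith)
    omega
  · intro x hx y y' c c' i hi h
    have hy : ∃ i, i < k + 1 ∧ (y i = 0 ∨ y i = M) := by
      rcases h with h | h
      · exact ⟨i, hi, Or.inl h.1⟩
      · exact ⟨i, hi, Or.inr h.1⟩
    have hy' : ∃ i, i < k + 1 ∧ (y' i = 0 ∨ y' i = M) := by
      rcases h with h | h
      · exact ⟨i, hi, Or.inl h.2⟩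
      · exact ⟨i, hi, Or.inr h.2⟩
    have hT : ∀ j, j ≤ k + 2 → |T k M y j - T k M y' j| ≤ ε := by
      intro j hj
      refine (T_close k M hM x y y' c c' j).trans (le_trans ?_ hMε.le)
      rw [div_le_div_iff_of_pos_right hM']
      exact_mod_cast hj
    obtain ⟨ey1, ey2⟩ := hbdl y hy
    obtain ⟨ey1', ey2'⟩ := hbdl y' hy'
    constructor
    · rintro ⟨m, h1, h2⟩
      by_contra hne
      have g1 := hab y
      have g2 := hab y'
      have t1 := hT (lam k M y') (lam_lt k M y').le
      have t2 := hT (lam k M y' + 1) (lam_lt k M y')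
      rw [ey1, ey1'] at h1
      rw [ey2, ey2'] at h2
      rw [ey1, ey2] at g1
      rw [ey1', ey2'] at g2
      rw [abs_le] at h1 h2 t1 t2
      have n1 := T_nonneg k M y (lam k M y)
      have n2 := T_le_one k M y (lam k M y + 1)
      have n3 := T_nonneg k M y (lam k M y')
      have n4 := T_le_one k M y (lam k M y' + 1)
      rcases lt_or_gt_of_ne hne with hlt | hlt
      · have m1 := T_mono k M y (show lam k M y + 1 ≤ lam k M y' from hlt)
        -- m < 0
        have hm : m < 0 := by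
          by_contra hm
          rw [not_lt] at hm
          have hm' : (0 : ℝ) ≤ m := by exact_mod_cast hm
          linarith
        have hm' : (m : ℝ) ≤ -1 := by
          have : m ≤ -1 := by omega
          exact_mod_cast this
        linarith
      · have m1 := T_mono k M y (show lam k M y' + 1 ≤ lam k M y from hlt)
        have hm : 0 < m := by
          by_contra hm
          rw [not_lt] at hm
          have hm' : (m : ℝ) ≤ 0 := by exact_mod_cast hm
          linarith
        have hm' : (1 : ℝ) ≤ m := by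
          have : 1 ≤ m := by omega
          exact_mod_cast this
        linarith
    · intro hl
      refine ⟨0, ?_, ?_⟩
      · rw [ey1, ey1', hl]
        simpa using hT (lam k M y') (lam_lt k M y').le
      · rw [ey2, ey2', hl]
        simpa using hT (lam k M y' + 1) (lam_lt k M y')

end Pool.Agent.H506R3.Ret
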